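import Mathlib
import Pool.Agent.Lib.MP_d6d0a6_lc.Ctx

set_option autoImplicit false

namespace Pool.Agent.Results.MP_d6d0a6_lc.EveryAlphabet

/-- For every finite alphabet with `k ≥ 5` letters and every learner `M` (computable or not)
there are a quasi-terminal-free pattern and a text for its erasing language on which the guesses
of `M` do not converge to a pattern generating that language. -/
theorem result :
    ∀ k : ℕ, 5 ≤ k →
      ∀ M : List (List (Fin k)) → List (ℕ ⊕ Fin k),
        ∃ α : List (ℕ ⊕ Fin k), α ≠ [] ∧
          (∃ a b : Fin k, a ≠ b ∧ Sum.inr a ∉ α ∧ Sum.inr b ∉ α) ∧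
          ∃ t : ℕ → List (Fin k),
            Set.range t =
              {w : List (Fin k) | ∃ σ : ℕ → List (Fin k),
                w = α.flatMap (Sum.elim σ (fun a => [a]))} ∧
            ¬ ∃ β : List (ℕ ⊕ Fin k),
              {w : List (Fin k) | ∃ σ : ℕ → List (Fin k),
                  w = β.flatMap (Sum.elim σ (fun a => [a]))} =
                {w : List (Fin k) | ∃ σ : ℕ → List (Fin k),
                  w = α.flatMap (Sum.elim σ (fun a => [a]))} ∧
              ∃ N : ℕ, ∀ n ≥ N, M ((List.range n).map t) = β := by
  intro k hk M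
  by_contra hcon
  apply Pool.Agent.Lib.MP_d6d0a6_lc.not_learnable k (by omega) M
  intro α h1 h2 t ht
  by_contra h3
  exact hcon ⟨α, h1, h2, t, ht, h3⟩

end Pool.Agent.Results.MP_d6d0a6_lc.EveryAlphabet
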