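import Mathlib
import Pool.Agent.Lib.MP_d6d0a6_lc.FNeg

set_option autoImplicit false

namespace Pool.Agent.Results.MP_d6d0a6_lc.FrequencyThreshold

/-- The erasing pattern language of `α`: variables are `Sum.inl v`, terminals `Sum.inr a`. -/
def eLang {k : ℕ} (α : List (ℕ ⊕ Fin k)) : Set (List (Fin k)) :=
  {w | ∃ σ : ℕ → List (Fin k), w = α.flatMap (Sum.elim σ (fun a => [a]))}

/-- Some computable learner identifies in the limit, from every text, the erasing language of
every nonempty pattern over `k` letters that misses two letters and in which every variable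
occurs at most `m` times. -/
def Inferrable (k m : ℕ) : Prop :=
  ∃ M : List (List (Fin k)) → List (ℕ ⊕ Fin k), Computable M ∧
    ∀ α : List (ℕ ⊕ Fin k), α ≠ [] →
      (∃ a b : Fin k, a ≠ b ∧ Sum.inr a ∉ α ∧ Sum.inr b ∉ α) →
      (∀ v : ℕ, (α.filterMap Sum.getLeft?).count v ≤ m) →
      ∀ t : ℕ → List (Fin k), Set.range t = eLang α →
        ∃ β : List (ℕ ⊕ Fin k), eLang β = eLang α ∧
          ∃ N : ℕ, ∀ n ≥ N, M ((List.range n).map t) = β

open Pool.Agent.Lib.MP_d6d0a6_lc in
/-- The quasi-terminal-free erasing pattern languages of variable frequency at most `m` are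
inferrable exactly below a threshold that is linear in the size of the alphabet. -/
theorem result (k : ℕ) (hk : 3 ≤ k) :
    ∃ N : ℕ, (∀ m : ℕ, Inferrable k m ↔ m < N) ∧
      2 * ((k - 1) / 2) ≤ N ∧ N ≤ 4 * ((k - 1) / 2) + 2 := by
  classical
  have hmono : ∀ m m', m ≤ m' → Inferrable k m' → Inferrable k m := by
    rintro m m' h ⟨M, hM, H⟩
    exact ⟨M, hM, fun α h1 h2 h3 => H α h1 h2 (fun v => (h3 v).trans h)⟩
  have hneg : ¬ Inferrable k (4 * ((k - 1) / 2) + 2) := by
    rintro ⟨M, -, H⟩
    exact Freq.not_learn k hk M H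
  have hpos : ∀ m, m < 2 * ((k - 1) / 2) → Inferrable k m := by
    intro m hm
    refine ⟨Freq.learner k, Freq.learner_comp k, ?_⟩
    rintro β - ⟨c, d, hcd, hc, hd⟩ hβ t ht
    exact Freq.learner_spec k β (fun α h1 h2 =>
      Freq.telltale m (by simpa using hm) α β c d hcd hc hd hβ h1 h2) t ht
  have hex : ∃ m, ¬ Inferrable k m := ⟨_, hneg⟩
  refine ⟨Nat.find hex, fun m => ⟨fun h => ?_, fun h => not_not.1 (Nat.find_min hex h)⟩, ?_,
    Nat.find_min' hex hneg⟩
  · by_contra hcon
    exact Nat.find_spec hex (hmono _ _ (Nat.not_lt.1 hcon) h)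
  · by_contra hcon
    exact Nat.find_spec hex (hpos _ (Nat.not_le.1 hcon))

end Pool.Agent.Results.MP_d6d0a6_lc.FrequencyThreshold
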